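import Pool.Agent.W523.LV.Stmts
import Pool.Agent.H336R4.BC.FixB1

/-!
# PROJECT LV: statements of intermediate tasks
-/

set_option autoImplicit false

open Finset

namespace Pool.Agent.W523.LV

open Pool.Agent.H96R3.BC (vv UU CC cf Wts Bf EE NN KK mem_CC)
open Pool.Agent.H336R4.BC (qa qb)

/-- LV-SRC: the source produced by a forcing (adapt `H394R3/ET/Src.lean`). -/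
def TaskSrc2 : Prop := ∀ (Q j₀ : ℕ) (s : ℕ → ℝ), 1 ≤ Q → 3 ≤ j₀ → Frc2 Q j₀ s →
  (∀ (i : ℕ) (v : ℝ), 0 ≤ v → |Sj2 Q j₀ s (j₀ + i) v| ≤ qa Q j₀ i * v ^ (8 * Q + 7)) ∧
  ∀ κ : ℝ, 0 ≤ κ → Summable (qa Q j₀) → Summable (qb Q j₀) → ∑' i, qa Q j₀ i ≤ κ / 8 → ∑' i, qb Q j₀ i ≤ κ / 8 →
    (∀ v : ℝ, 0 ≤ v → Summable fun i : ℕ => Sj2 Q j₀ s (j₀ + i) v) ∧
    (∀ v : ℝ, 0 ≤ v → |∑' i : ℕ, Sj2 Q j₀ s (j₀ + i) v| ≤ κ / 8 * NN Q v) ∧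
    Continuous fun v : ℝ => ∑' i : ℕ, Sj2 Q j₀ s (j₀ + i) (max v 0)

/-- LV-ABEL: summation by parts and the interpolation `itp`. -/
def TaskAbel : Prop := ∀ (Q j₀ J L : ℕ) (b : ℕ → ℕ), 1 ≤ Q → 1 ≤ j₀ → j₀ ≤ J →
  b 0 = J ^ (2 * Q) → b L = (J + 1) ^ (2 * Q) → (∀ i, i < L → b i < b (i + 1)) →
  (∀ i, i < L → ∃ p : ℕ, p.Prime ∧ b i < p ∧ p ≤ b (i + 1)) → ∀ m : ℕ → ℝ,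
  (∀ i n, i < L → b i ≤ n → n ≤ b (i + 1) → ∃ θ : ℝ, 0 ≤ θ ∧ θ ≤ 1 ∧
      itp b L m n = (1 - θ) * m (b i) + θ * m (b (i + 1))) ∧
  (∑ n ∈ CC Q J, blk b L m n = m ((J + 1) ^ (2 * Q)) - m (J ^ (2 * Q))) ∧
  (∀ n, blk b L m n ≠ 0 → n.Prime ∧ n ∈ CC Q J) ∧
  ((∀ q : Polynomial ℝ, q.natDegree < 4 * Q + 4 →
      ∑ n ∈ Ico (J ^ (2 * Q)) ((J + 1) ^ (2 * Q)), itp b L m n * gw Q j₀ J q n = 0) →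
    ∀ P : Polynomial ℝ, P.natDegree < 4 * Q + 4 →
      ∑ p ∈ CC Q J, blk b L m p * (vv Q j₀ p) ^ 2 * P.eval (vv Q j₀ p) =
        m ((J + 1) ^ (2 * Q)) * (UU j₀ (J + 1)) ^ 2 * P.eval (UU j₀ (J + 1)) -
          m (J ^ (2 * Q)) * (UU j₀ J) ^ 2 * P.eval (UU j₀ J))

/-- `om Q n = j₀ (v_(n+1)^2 - v_n^2)` -/
noncomputable def om (Q n : ℕ) : ℝ := ((n : ℝ) + 1) ^ (1 / (2 * (Q : ℝ))) - (n : ℝ) ^ (1 / (2 * (Q : ℝ)))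

/-- LV-GRID: the nodes of a cell are nearly equidistant. -/
def TaskGrid : Prop := ∀ Q : ℕ, 1 ≤ Q → ∃ C : ℝ, 0 < C ∧ ∃ J₁ : ℕ, ∀ J j₀ : ℕ, J₁ ≤ J → 1 ≤ j₀ → j₀ ≤ J →
  (tau j₀ J (vv Q j₀ (J ^ (2 * Q))) = 0 ∧ tau j₀ J (vv Q j₀ ((J + 1) ^ (2 * Q))) = 1) ∧
  (∀ n k : ℕ, J ^ (2 * Q) ≤ n → n ≤ k → k ≤ (J + 1) ^ (2 * Q) →
    ((k : ℝ) - n) / (2 * (CC Q J).card) ≤ tau j₀ J (vv Q j₀ k) - tau j₀ J (vv Q j₀ n) ∧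
    tau j₀ J (vv Q j₀ k) - tau j₀ J (vv Q j₀ n) ≤ 2 * ((k : ℝ) - n) / (CC Q J).card) ∧
  (∀ n : ℕ, J ^ (2 * Q) ≤ n → n < (J + 1) ^ (2 * Q) →
    1 / (2 * ((CC Q J).card : ℝ)) ≤ om Q n ∧ om Q n ≤ 2 / (CC Q J).card) ∧
  (∀ n k : ℕ, J ^ (2 * Q) ≤ n → n ≤ k → k < (J + 1) ^ (2 * Q) → |om Q n - om Q k| ≤ C * ((k : ℝ) - n) / (CC Q J).card ^ 2) ∧
  (∑ n ∈ Ico (J ^ (2 * Q)) ((J + 1) ^ (2 * Q)), om Q n = 1) ∧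
  (∀ q : Polynomial ℝ, q.natDegree < 4 * Q + 4 → ∀ n : ℕ, J ^ (2 * Q) ≤ n → n < (J + 1) ^ (2 * Q) →
    |2 * j₀ * gw Q j₀ J q n - om Q n * q.eval (tau j₀ J (vv Q j₀ n))| ≤ C * nm (4 * Q + 4) q / (CC Q J).card ^ 2) ∧
  (∀ q : Polynomial ℝ, q.natDegree < 4 * Q + 4 → ∀ x y : ℝ, 0 ≤ x → x ≤ 1 → 0 ≤ y → y ≤ 1 →
    |q.eval x| ≤ nm (4 * Q + 4) q ∧ |q.eval x - q.eval y| ≤ (4 * Q + 4) * nm (4 * Q + 4) q * |x - y|)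

open Classical in
/-- weight of the corrections: trapezoids, zero on the first and the last segment -/
noncomputable def Wt (N : ℕ) (z : ℕ → ℕ) (D₀ : ℝ) (n : ℕ) : ℝ :=
  if z 0 ≤ n ∧ n ≤ z (2 * N - 1) then min (Metric.infDist (n : ℝ) (Zs N z)) D₀ / D₀ else 0

/-- LV-WT: properties of the weight and of the wave. -/
def TaskWt : Prop := ∀ Q : ℕ, 1 ≤ Q → ∃ N₀ : ℕ, 1 ≤ N₀ ∧ ∀ N : ℕ, N₀ ≤ N → ∃ ε₁ : ℝ, 0 < ε₁ ∧ ∃ J₁ : ℕ, ∀ J : ℕ, J₁ ≤ J →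
  ∀ z : ℕ → ℕ,
  (∀ m, m < 2 * N → |(z m : ℝ) - ((J : ℝ) ^ (2 * Q) + (2 * m + 1) / (4 * N) * (CC Q J).card)| ≤ ε₁ * (CC Q J).card) →
  ∀ D₀ : ℝ, (CC Q J).card / (32 * (N : ℝ)) ≤ D₀ → D₀ ≤ (CC Q J).card / (16 * (N : ℝ)) →
  (∀ n, 0 ≤ Wt N z D₀ n ∧ Wt N z D₀ n ≤ 1) ∧
  (∀ n k : ℕ, |Wt N z D₀ n - Wt N z D₀ k| ≤ 32 * N * |(n : ℝ) - k| / (CC Q J).card) ∧
  Wt N z D₀ (J ^ (2 * Q)) = 0 ∧ Wt N z D₀ ((J + 1) ^ (2 * Q)) = 0 ∧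
  (∀ x y : ℕ, J ^ (2 * Q) ≤ x → y ≤ (J + 1) ^ (2 * Q) → x < y →
    ((CC Q J).card : ℝ) ≤ 32 * (4 * (Q : ℝ) + 4) * ((y : ℝ) - x) →
    ((y : ℝ) - x) ≤ 2 * (((Ico x y).filter (fun n => 1 / 2 ≤ Wt N z D₀ n)).card : ℝ)) ∧
  trap N z D₀ ((J ^ (2 * Q) : ℕ) : ℝ) = D₀ ∧ trap N z D₀ (((J + 1) ^ (2 * Q) : ℕ) : ℝ) = D₀ ∧
  (∀ x y : ℝ, |trap N z D₀ x - trap N z D₀ y| ≤ |x - y|)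

end Pool.Agent.W523.LV
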