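import Mathlib
import Pool.Agent.H394R3.ET.Stmts
import Pool.Agent.H96R3.BC.Basic
import Pool.Agent.H96R3.BC.FixDefs

/-!
# PROJECT LV: MP_a10c55_nt is false (large values of both signs for products of error terms)

The machine of project ET (`Pool/Agent/H394R3/ET`), with forcings that carry masses across the end points of the
cells (`BB`), a stability estimate for the machine, and a steering of the summatory function inside a window.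
-/

set_option autoImplicit false

open Finset

namespace Pool.Agent.W523.LV

open Pool.Agent.H96R3.BC (vv UU CC cf Wts Bf EE NN KK mem_CC)
open Pool.Agent.H394R3.ET (KC AS Mass HH)
open Pool.Agent.H13R3.EM (Sel cv)

/-! ## The machine -/

/-- boundary masses of a forcing: weighted summatory function at the end points of the cells -/
noncomputable def BB (Q j₀ : ℕ) (s : ℕ → ℝ) (j : ℕ) : ℝ := ∑ n ∈ Icc 1 (j ^ (2 * Q)), s n * (vv Q j₀ n) ^ 2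

/-- a forcing; its moments of order `< 4 Q + 4` vanish on each cell after adding the boundary masses -/
structure Frc2 (Q j₀ : ℕ) (s : ℕ → ℝ) : Prop where
  supp : ∀ n, s n ≠ 0 → n.Prime ∧ j₀ ^ (2 * Q) < n
  bd : ∀ n : ℕ, |s n| ≤ 1 / 2 / (Real.log n) ^ 2
  bb : ∀ j, j₀ ≤ j → |BB Q j₀ s j| ≤ 1 / 4 * (j : ℝ) ^ (2 * Q - 1) * (UU j₀ j) ^ 2
  mom : ∀ j, j₀ ≤ j → ∀ P : Polynomial ℝ, P.natDegree < 4 * Q + 4 →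
    ∑ p ∈ CC Q j, s p * (vv Q j₀ p) ^ 2 * P.eval (vv Q j₀ p) + BB Q j₀ s j * P.eval (UU j₀ j) =
      BB Q j₀ s (j + 1) * P.eval (UU j₀ (j + 1))

/-- contribution of the cell `j`, with the boundary masses -/
noncomputable def Bf2 (Q j₀ : ℕ) (s y : ℕ → ℝ) (f : ℝ → ℝ) (j : ℕ) (v : ℝ) : ℝ :=
  Bf Q j₀ y f j v + BB Q j₀ s j * KK (4 * Q + 4) (UU j₀ j) v -
    BB Q j₀ s (j + 1) * KK (4 * Q + 4) (UU j₀ (j + 1)) v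

/-- the solution of the fixed point equation -/
structure Sol2 (Q j₀ : ℕ) (s y : ℕ → ℝ) (f : ℝ → ℝ) : Prop where
  small : ∀ p : ℕ, p.Prime → |y p| ≤ 1
  low : ∀ p, p ≤ j₀ ^ (2 * Q) → y p = 0
  cont : Continuous f
  bd : ∃ κ : ℝ, ∀ v : ℝ, 0 ≤ v → |f v| ≤ κ * (1 + v) ^ (4 * Q + 3)
  sumb : ∃ M : ℕ → ℝ, Summable M ∧ ∀ (i : ℕ) (v : ℝ), 0 ≤ v → |Bf2 Q j₀ s y f (j₀ + i) v| ≤ M i * v ^ (8 * Q + 7)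
  eq : ∀ v : ℝ, 0 ≤ v → f v = (vv Q j₀ 1) ^ 2 * KK (4 * Q + 4) (vv Q j₀ 1) v
    - (∫ u in (0:ℝ)..1, f u * KK (4 * Q + 4) u v) + ∑' i : ℕ, Bf2 Q j₀ s y f (j₀ + i) v

/-- solution with forcing `s`: response `x`, density `f`. -/
structure Out2 (Q j₀ : ℕ) (w : ℕ → ℝ → ℝ) (s x : ℕ → ℝ) (f : ℝ → ℝ) : Prop where
  xsupp : ∀ n, x n ≠ 0 → n.Prime ∧ j₀ ^ (2 * Q) < n
  xbd : ∀ n : ℕ, |x n| ≤ 1 / 2 / (Real.log n) ^ 2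
  sol : Sol2 Q j₀ s (fun p => s p + x p) f
  fbd : ∀ v : ℝ, 0 ≤ v → |f v| ≤ (j₀ : ℝ) ^ Q * NN Q v
  resp : ∀ j, j₀ ≤ j → ∀ p ∈ CC Q j, p.Prime → x p =
    ((∫ u in (UU j₀ j)..(UU j₀ (j + 1)), f u * w p u) -
      ∑ n ∈ KC Q j, cf (fun p => s p + x p) n * (vv Q j₀ n) ^ 2 * w p (vv Q j₀ n)) / (vv Q j₀ p) ^ 2

/-- contribution of the forcing in the cell `j`, with the boundary masses -/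
noncomputable def Sj2 (Q j₀ : ℕ) (s : ℕ → ℝ) (j : ℕ) (v : ℝ) : ℝ :=
  ∑ p ∈ CC Q j, s p * (vv Q j₀ p) ^ 2 * KK (4 * Q + 4) (vv Q j₀ p) v + BB Q j₀ s j * KK (4 * Q + 4) (UU j₀ j) v -
    BB Q j₀ s (j + 1) * KK (4 * Q + 4) (UU j₀ (j + 1)) v

/-- LV-SEL: a solution gives an element of the Selberg class with all data, of degree `8 Q`
(adapt `H993R3/BC/Theta.lean`, then `H335R3.ETSelB.taskSelB` as in `H394R3/ET/Asm3.lean`). -/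
def TaskSel2 : Prop := ∀ (Q j₀ : ℕ) (s y : ℕ → ℝ) (f : ℝ → ℝ), 1 ≤ Q → 3 ≤ j₀ → Frc2 Q j₀ s → Sol2 Q j₀ s y f →
  ∃ F : Sel, F.m0 = 0 ∧ F.deg = 8 * (Q : ℝ) ∧ ∀ n : ℕ, 1 ≤ n → F.a n = ((cf y n : ℝ) : ℂ)

/-- LV-MACH: the fixed point with a forcing (adapt `H394R3/ET/{Src,Mach,Mach2}.lean`). -/
def TaskMach2 : Prop := ∃ Q₀ : ℕ, ∀ Q : ℕ, Q₀ ≤ Q → ∃ C : ℝ, 0 < C ∧ ∀ s' : ℝ, 0 < s' → ∃ J₀ : ℕ, ∀ j₀ : ℕ, J₀ ≤ j₀ →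
  Mass Q j₀ s' ∧ ∃ (a0 : ℕ → ℝ) (w : ℕ → ℝ → ℝ), Wts Q j₀ C a0 w ∧
    ∀ s : ℕ → ℝ, Frc2 Q j₀ s → ∃ (x : ℕ → ℝ) (f : ℝ → ℝ), Out2 Q j₀ w s x f

/-- LV-DECAY: the response decays like the forcing (adapt `H927R2/ETDecay.lean`). -/
def TaskDecay2 : Prop := ∃ Q₀ : ℕ, ∀ Q : ℕ, Q₀ ≤ Q → ∀ C : ℝ, 0 < C → ∃ s' : ℝ, 0 < s' ∧ ∃ J₀ : ℕ, ∀ j₀ : ℕ, J₀ ≤ j₀ →
  ∀ (a0 : ℕ → ℝ) (w : ℕ → ℝ → ℝ), Wts Q j₀ C a0 w → Mass Q j₀ s' →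
  ∀ (ρ : ℕ → ℝ), Antitone ρ → (∀ n, 0 ≤ ρ n ∧ ρ n ≤ 1 / 8) →
  ∀ (s x : ℕ → ℝ) (f : ℝ → ℝ), Frc2 Q j₀ s → Out2 Q j₀ w s x f →
  (∀ n : ℕ, |s n| ≤ 1 / 2 * HH ρ n / (Real.log n) ^ 2) → ∀ n : ℕ, |x n| ≤ 1 / 2 * HH ρ n / (Real.log n) ^ 2

/-- LV-CELLS: the sum over complete cells (adapt `H993R3/ET/Cells.lean`). -/
def TaskCells2 : Prop := ∃ Q₀ : ℕ, ∀ Q : ℕ, Q₀ ≤ Q → ∀ C : ℝ, 0 < C → ∀ j₀ : ℕ, 3 ≤ j₀ → ∃ K : ℝ, 0 < K ∧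
  ∀ (a0 : ℕ → ℝ) (w : ℕ → ℝ → ℝ), Wts Q j₀ C a0 w →
  ∀ (s x : ℕ → ℝ) (f : ℝ → ℝ), Frc2 Q j₀ s → Out2 Q j₀ w s x f →
  ∀ J : ℕ, j₀ ≤ J →
    |∑ n ∈ Icc 1 (J ^ (2 * Q)), cf (fun p => s p + x p) n - BB Q j₀ s J / (UU j₀ J) ^ 2| ≤
      K * (J : ℝ) ^ ((3 * (Q : ℝ) + 1) / 2)

/-- LV-BOUND: upper bound for the summatory function (adapt `H394R3/ET/Bound.lean`). -/
def TaskBound2 : Prop := ∃ Q₀ : ℕ, ∀ Q : ℕ, Q₀ ≤ Q → ∀ j₀ : ℕ, 3 ≤ j₀ → ∀ K₁ : ℝ, 0 < K₁ → ∃ K : ℝ, 0 < K ∧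
  ∀ (y : ℕ → ℝ) (r : ℝ), (∀ p, p ≤ j₀ ^ (2 * Q) → y p = 0) → 0 ≤ r → r ≤ 1 / 16 →
  (∀ J : ℕ, j₀ ≤ J → |∑ n ∈ Icc 1 (J ^ (2 * Q)), cf y n| ≤ K₁ * (J : ℝ) ^ (2 * (Q : ℝ) - 1 - 2 * Q * r)) →
  (∀ q : ℕ, q.Prime → |y q| ≤ (q : ℝ) ^ (-r)) →
  ∀ x : ℝ, 1 ≤ x → |AS (cf y) x| ≤ K * x ^ (1 - 1 / (2 * (Q : ℝ)) - r)

/-! ## Stability of the machine -/

/-- weight for the differences of densities -/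
noncomputable def N4 (Q : ℕ) (v : ℝ) : ℝ := if v ≤ 1 then v ^ (4 * Q + 3) else v ^ (4 * Q)

/-- Taylor factor of the cell `j` -/
noncomputable def ej (Q j₀ j : ℕ) : ℝ := (UU j₀ (j + 1) - UU j₀ j) ^ (4 * Q - 3) / UU j₀ j ^ (4 * Q)

/-- LV-EB: Taylor bounds with `4 Q + 3` moments for `v ≤ 1` and `4 Q - 3` moments for `v ≥ 1`
(`H394R3.BC.Ker_taylor`, `H394R3.BC.cell_taylor`; compare `H124R3.BC.taskDef` and `H394R3/ET/Src.lean`). -/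
def TaskEB : Prop := (∀ (Q j₀ : ℕ) (C : ℝ) (a0 : ℕ → ℝ) (w : ℕ → ℝ → ℝ), 1 ≤ Q → 3 ≤ j₀ → 0 ≤ C → Wts Q j₀ C a0 w →
    ∀ j : ℕ, j₀ ≤ j → ∀ u : ℝ, UU j₀ j ≤ u → u ≤ UU j₀ (j + 1) → ∀ v : ℝ, 0 ≤ v →
      |EE Q j₀ w j u v| ≤ (1 + C) * ej Q j₀ j * N4 Q v) ∧
  (∀ (Q j₀ : ℕ) (s : ℕ → ℝ), 1 ≤ Q → 3 ≤ j₀ → Frc2 Q j₀ s → ∀ j : ℕ, j₀ ≤ j → ∀ v : ℝ, 0 ≤ v →
      |Sj2 Q j₀ s j v| ≤ ej Q j₀ j * ((CC Q j).card * UU j₀ (j + 1) ^ 2) * N4 Q v)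

/-- LV-SUM: elementary estimates. -/
def TaskSum4 : Prop := ∀ Q : ℕ, 4 ≤ Q → ∃ C : ℝ, 0 < C ∧ ∀ j₀ : ℕ, 3 ≤ j₀ → ∀ j : ℕ, j₀ ≤ j →
  (UU j₀ (j + 1) - UU j₀ j) ^ (4 * Q - 2) * UU j₀ (j + 1) ^ (4 * Q) / UU j₀ j ^ (4 * Q) ≤ C / ((j₀ : ℝ) * (j : ℝ) ^ 2) ∧
  ej Q j₀ j * ((CC Q j).card * UU j₀ (j + 1) ^ 2) ≤ C * (j₀ : ℝ) ^ (1 / 2 : ℝ) * (j : ℝ) ^ ((3 - 4 * (Q : ℝ)) / 2) ∧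
  (UU j₀ (j + 1) - UU j₀ j) * UU j₀ (j + 1) ^ (4 * Q) * (Real.log (j + 1)) ^ 3 ≤
    C * (j₀ : ℝ) ^ ((1 - 4 * (Q : ℝ)) / 2) * ((CC Q j).card * UU j₀ j ^ 2)

/-- LV-STAB: two forcings which agree up to `R ^ (2 Q)` have nearly the same responses up to `2 R ^ (2 Q)`. -/
def TaskStab : Prop := ∃ Q₀ : ℕ, ∀ Q : ℕ, Q₀ ≤ Q → ∀ C : ℝ, 0 < C → ∃ s' : ℝ, 0 < s' ∧ ∃ J₀ : ℕ, ∀ j₀ : ℕ, J₀ ≤ j₀ →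
  ∀ (a0 : ℕ → ℝ) (w : ℕ → ℝ → ℝ), Wts Q j₀ C a0 w → Mass Q j₀ s' → ∃ K : ℝ, 0 < K ∧
  ∀ (s x : ℕ → ℝ) (f : ℝ → ℝ) (t z : ℕ → ℝ) (g : ℝ → ℝ),
    Frc2 Q j₀ s → Out2 Q j₀ w s x f → Frc2 Q j₀ t → Out2 Q j₀ w t z g →
  ∀ R : ℕ, j₀ ≤ R → (∀ n : ℕ, n ≤ R ^ (2 * Q) → s n = t n) →
  ∀ j : ℕ, j₀ ≤ j → (j + 1) ^ (2 * Q) ≤ 2 * R ^ (2 * Q) → ∀ p ∈ CC Q j,
    |x p - z p| ≤ K * (R : ℝ) ^ ((5 - 4 * (Q : ℝ)) / 2)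

/-- LV-PERT: small changes of the prime coefficients. -/
def TaskPert : Prop := ∀ (y y' s g : ℕ → ℝ) (X D : ℝ) (T : ℕ), 16 ≤ X → X ≤ 2 * T → 0 ≤ D →
  (∀ p : ℕ, p.Prime → |y p| ≤ 1) → (∀ p : ℕ, p.Prime → |y' p| ≤ 1) → (∀ p : ℕ, p.Prime → |g p| ≤ 1) →
  (∀ n : ℕ, s n ≠ 0 → n.Prime ∧ T < n) → (∀ p : ℕ, p.Prime → (p : ℝ) ≤ X → |y p - y' p - s p| ≤ D) →
  ∀ x : ℝ, 1 ≤ x → x ≤ X →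
    |AS (cf y) x - AS (cf y') x - AS s x| ≤ 4 * X * (Real.log X) ^ 2 * D ∧
    |AS (cv (cf g) (cf y)) x - AS (cv (cf g) (cf y')) x - AS s x| ≤ 4 * X * (Real.log X) ^ 2 * D

/-! ## Steering in one window -/

/-- norm of a polynomial -/
noncomputable def nm (K : ℕ) (q : Polynomial ℝ) : ℝ := ∑ i ∈ range K, |q.coeff i|

/-- LV-LINA: coercive bilinear forms on polynomials of degree `< K` with a perturbation. -/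
def TaskLina : Prop := ∀ K : ℕ, 1 ≤ K → ∃ ε C : ℝ, 0 < ε ∧ 0 < C ∧
  ∀ (S : Finset ℕ) (t ω W : ℕ → ℝ) (B : Polynomial ℝ →ₗ[ℝ] Polynomial ℝ →ₗ[ℝ] ℝ) (ℓ : Polynomial ℝ →ₗ[ℝ] ℝ) (lam : ℝ),
  (∀ n ∈ S, 0 ≤ t n ∧ t n ≤ 1) → (∀ n ∈ S, 0 ≤ ω n) → (∀ n ∈ S, 0 ≤ W n ∧ W n ≤ 1) →
  (∀ i : ℕ, i < 2 * K → 1 / (32 * (K : ℝ)) ≤
    ∑ n ∈ S.filter (fun n => (i : ℝ) / (2 * K) ≤ t n ∧ t n ≤ ((i : ℝ) + 1) / (2 * K) ∧ 1 / 2 ≤ W n), ω n) →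
  (∀ r q : Polynomial ℝ, r.natDegree < K → q.natDegree < K →
    |B r q - ∑ n ∈ S, ω n * W n * r.eval (t n) * q.eval (t n)| ≤ ε * nm K r * nm K q) →
  0 ≤ lam → (∀ q : Polynomial ℝ, q.natDegree < K → |ℓ q| ≤ lam * nm K q) →
  ∃ r : Polynomial ℝ, r.natDegree < K ∧ nm K r ≤ C * lam ∧ ∀ q : Polynomial ℝ, q.natDegree < K → B r q = ℓ q

/-- block forcing: its summatory function is `m` at the points of the partition -/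
noncomputable def blk (b : ℕ → ℕ) (L : ℕ) (m : ℕ → ℝ) (n : ℕ) : ℝ := ∑ i ∈ range L,
  if n.Prime ∧ b i < n ∧ n ≤ b (i + 1) then
    (m (b (i + 1)) - m (b i)) / (((Ioc (b i) (b (i + 1))).filter Nat.Prime).card : ℝ) else 0

/-- summatory function of the block forcing (interpolation of `m`) -/
noncomputable def itp (b : ℕ → ℕ) (L : ℕ) (m : ℕ → ℝ) (n : ℕ) : ℝ := m (b 0) + ∑ k ∈ Ioc (b 0) n, blk b L m k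

/-- local coordinate of the cell `J` -/
noncomputable def tau (j₀ J : ℕ) (v : ℝ) : ℝ := (v - UU j₀ J) / (UU j₀ (J + 1) - UU j₀ J)

/-- test weights -/
noncomputable def gw (Q j₀ J : ℕ) (q : Polynomial ℝ) (n : ℕ) : ℝ :=
  ∫ v in (vv Q j₀ n)..(vv Q j₀ (n + 1)), v * q.eval (tau j₀ J v)

/-- LV-CELL: exact moments in a cell by a polynomial correction (from LV-LINA). -/
def TaskCell : Prop := ∀ Q : ℕ, 1 ≤ Q → ∃ C : ℝ, 0 < C ∧ ∀ Lip : ℝ, 0 < Lip → ∃ ε₀ : ℝ, 0 < ε₀ ∧ ∃ J₁ : ℕ, ∀ J j₀ : ℕ,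
  J₁ ≤ J → 1 ≤ j₀ → j₀ ≤ J →
  ∀ (L : ℕ) (b : ℕ → ℕ), b 0 = J ^ (2 * Q) → b L = (J + 1) ^ (2 * Q) → (∀ i, i < L → b i < b (i + 1)) →
  (∀ i, i < L → ∃ p : ℕ, p.Prime ∧ b i < p ∧ p ≤ b (i + 1)) →
  (∀ i, i < L → ((b (i + 1) : ℝ) - b i) ≤ ε₀ * (CC Q J).card) →
  ∀ W : ℕ → ℝ, (∀ n, 0 ≤ W n ∧ W n ≤ 1) → (∀ n k : ℕ, |W n - W k| ≤ Lip * |(n : ℝ) - k| / (CC Q J).card) →
  W (J ^ (2 * Q)) = 0 → W ((J + 1) ^ (2 * Q)) = 0 →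
  (∀ x y : ℕ, J ^ (2 * Q) ≤ x → y ≤ (J + 1) ^ (2 * Q) → x < y →
    ((CC Q J).card : ℝ) ≤ 32 * (4 * (Q : ℝ) + 4) * ((y : ℝ) - x) →
    ((y : ℝ) - x) ≤ 2 * (((Ico x y).filter (fun n => 1 / 2 ≤ W n)).card : ℝ)) →
  ∀ (m : ℕ → ℝ) (lam : ℝ), 0 ≤ lam → (∀ q : Polynomial ℝ, q.natDegree < 4 * Q + 4 →
      |∑ n ∈ Ico (J ^ (2 * Q)) ((J + 1) ^ (2 * Q)), itp b L m n * gw Q j₀ J q n| ≤ lam * nm (4 * Q + 4) q / j₀) →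
  ∃ r : Polynomial ℝ, r.natDegree < 4 * Q + 4 ∧ nm (4 * Q + 4) r ≤ C * lam ∧
    ∀ P : Polynomial ℝ, P.natDegree < 4 * Q + 4 →
      ∑ p ∈ CC Q J, blk b L (fun n => m n + W n * r.eval (tau j₀ J (vv Q j₀ n))) p * (vv Q j₀ p) ^ 2 *
          P.eval (vv Q j₀ p) =
        m ((J + 1) ^ (2 * Q)) * (UU j₀ (J + 1)) ^ 2 * P.eval (UU j₀ (J + 1)) -
          m (J ^ (2 * Q)) * (UU j₀ J) ^ 2 * P.eval (UU j₀ J)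

/-- LV-NEST: nested intervals around a crossing point in an interval with many primes. -/
def TaskNest : Prop := ∀ (η c : ℝ), 0 < η → η ≤ 1 / 100 → 0 < c → ∃ X₀ : ℕ, ∀ X Y : ℕ, X₀ ≤ X →
  (X : ℝ) ^ (1 / 2 : ℝ) ≤ Y → Y ≤ X → c * Y / Real.log X ≤ (((Ioc X (X + Y)).filter Nat.Prime).card : ℝ) →
  ∃ (L : ℕ) (b : ℕ → ℕ) (i₀ : ℕ), 0 < i₀ ∧ i₀ < L ∧ b 0 = X ∧ b L = X + Y ∧ (∀ i, i < L → b i < b (i + 1)) ∧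
    (∀ i, i < L → ((b (i + 1) : ℝ) - b i) ≤ (X : ℝ) ^ η * (((Ioc (b i) (b (i + 1))).filter Nat.Prime).card : ℝ)) ∧
    (∀ i, i < L → ((b (i + 1) : ℝ) - b i) ≤ (X : ℝ) ^ (2 / 5 : ℝ) ∨
      (((b (i + 1) : ℝ) - b i) ≤ (X : ℝ) ^ η * |(b i : ℝ) - b i₀| ∧
        ((b (i + 1) : ℝ) - b i) ≤ (X : ℝ) ^ η * |(b (i + 1) : ℝ) - b i₀|)) ∧
    (Y : ℝ) ≤ (X : ℝ) ^ η * ((b i₀ : ℝ) - X) ∧ (Y : ℝ) ≤ (X : ℝ) ^ η * ((X : ℝ) + Y - b i₀)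

/-- a partition of the cell `J` into blocks with many primes, adapted to crossing points `z m`, `m < 2 N` -/
structure Part (Q N : ℕ) (η ε₀ : ℝ) (J L : ℕ) (b z : ℕ → ℕ) : Prop where
  b0 : b 0 = J ^ (2 * Q)
  bL : b L = (J + 1) ^ (2 * Q)
  mono : ∀ i, i < L → b i < b (i + 1)
  many : ∀ i, i < L → ((b (i + 1) : ℝ) - b i) ≤
    ((J : ℝ) ^ (2 * Q)) ^ η * (((Ioc (b i) (b (i + 1))).filter Nat.Prime).card : ℝ)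
  short : ∀ i, i < L → ((b (i + 1) : ℝ) - b i) ≤ ε₀ * (CC Q J).card
  zb : ∀ m, m < 2 * N → ∃ i, i ≤ L ∧ b i = z m
  znear : ∀ m, m < 2 * N →
    |(z m : ℝ) - ((J : ℝ) ^ (2 * Q) + (2 * m + 1) / (4 * N) * (CC Q J).card)| ≤ ε₀ * (CC Q J).card
  far : ∀ i, i < L → ((b (i + 1) : ℝ) - b i) ≤ ((J : ℝ) ^ (2 * Q)) ^ (41 / 100 : ℝ) ∨ ∀ m, m < 2 * N →
    ((b (i + 1) : ℝ) - b i) ≤ ((J : ℝ) ^ (2 * Q)) ^ η * |(b i : ℝ) - z m| ∧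
      ((b (i + 1) : ℝ) - b i) ≤ ((J : ℝ) ^ (2 * Q)) ^ η * |(b (i + 1) : ℝ) - z m|

/-- LV-PART: partitions (from LV-NEST and `H469R10.HO.hoheisel`). -/
def TaskPart : Prop := ∃ Q₀ : ℕ, ∀ Q : ℕ, Q₀ ≤ Q → ∀ N : ℕ, 1 ≤ N → ∀ η ε₀ : ℝ, 0 < η → η ≤ 1 / 100 → 0 < ε₀ →
  ∃ J₁ : ℕ, ∀ J : ℕ, J₁ ≤ J → ∃ (L : ℕ) (b z : ℕ → ℕ), Part Q N η ε₀ J L b z

/-- the set of the crossing points -/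
def Zs (N : ℕ) (z : ℕ → ℕ) : Set ℝ := {x : ℝ | ∃ m, m < 2 * N ∧ x = z m}

open Classical in
/-- the sign -/
noncomputable def sg (N : ℕ) (z : ℕ → ℕ) (x : ℝ) : ℝ := (-1 : ℝ) ^ (((range (2 * N)).filter (fun m => (z m : ℝ) ≤ x)).card)

/-- trapezoid wave with zeros at the crossing points -/
noncomputable def trap (N : ℕ) (z : ℕ → ℕ) (D₀ : ℝ) (x : ℝ) : ℝ := sg N z x * min (Metric.infDist x (Zs N z)) D₀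

/-- LV-BASE: the moments of the wave are small (the wave is odd around each crossing point). -/
def TaskBaseM : Prop := ∀ Q : ℕ, 1 ≤ Q → ∃ C : ℝ, 0 < C ∧ ∀ N : ℕ, 1 ≤ N → ∃ ε₁ : ℝ, 0 < ε₁ ∧ ∃ J₁ : ℕ, ∀ J j₀ : ℕ,
  J₁ ≤ J → 1 ≤ j₀ → j₀ ≤ J → ∀ z : ℕ → ℕ,
  (∀ m, m < 2 * N → |(z m : ℝ) - ((J : ℝ) ^ (2 * Q) + (2 * m + 1) / (4 * N) * (CC Q J).card)| ≤ ε₁ * (CC Q J).card) →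
  ∀ D₀ : ℝ, 0 < D₀ → D₀ ≤ (CC Q J).card / (8 * N) → ∀ q : Polynomial ℝ, q.natDegree < 4 * Q + 4 →
    |∑ n ∈ Ico (J ^ (2 * Q)) ((J + 1) ^ (2 * Q)), trap N z D₀ n * gw Q j₀ J q n| ≤
      C * D₀ / N * nm (4 * Q + 4) q / j₀

/-- amplitude of the wave in the window of `R` -/
noncomputable def Amp (Q N R : ℕ) (δ : ℝ) : ℝ := ((R : ℝ) ^ (2 * Q)) ^ (-δ) * ((CC Q R).card / (16 * N))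

/-- LV-MAIN: steering in a cell of the window (from LV-PART, LV-CELL, LV-BASE). -/
def TaskMain : Prop := ∃ Q₀ : ℕ, ∀ Q : ℕ, Q₀ ≤ Q → ∃ N : ℕ, 1 ≤ N ∧ ∀ δ₁ δ r : ℝ, 0 < δ₁ → δ₁ < δ → δ < r → r ≤ 1 / 8 →
  ∃ R₀ : ℕ, ∀ R : ℕ, R₀ ≤ R → ∀ J : ℕ, R ≤ J → (J + 1) ^ (2 * Q) ≤ 2 * R ^ (2 * Q) →
  ∃ (nr : Set ℝ) (ω : ℝ → ℝ), (∀ x, ω x = 1 ∨ ω x = -1) ∧ ∀ j₀ : ℕ, 1 ≤ j₀ → j₀ ≤ R → ∀ c : ℕ → ℝ,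
  (∀ n ∈ CC Q J, |c n| ≤ ((R : ℝ) ^ (2 * Q)) ^ (-r)) →
  (∀ x : ℝ, (J : ℝ) ^ (2 * Q) ≤ x → x ≤ ((J : ℝ) + 1) ^ (2 * Q) →
    |AS c x| ≤ (R : ℝ) ^ (2 * Q - 1) * ((R : ℝ) ^ (2 * Q)) ^ (-r)) →
  ∃ s : ℕ → ℝ, (∀ n, s n ≠ 0 → n.Prime ∧ n ∈ CC Q J) ∧ (∀ n, |s n| ≤ ((R : ℝ) ^ (2 * Q)) ^ (-δ₁)) ∧
    ∑ n ∈ CC Q J, s n = (Amp Q N R δ - AS c (((J + 1) ^ (2 * Q) : ℕ) : ℝ)) - (Amp Q N R δ - AS c ((J ^ (2 * Q) : ℕ) : ℝ)) ∧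
    (∀ P : Polynomial ℝ, P.natDegree < 4 * Q + 4 → ∑ p ∈ CC Q J, s p * (vv Q j₀ p) ^ 2 * P.eval (vv Q j₀ p) =
      (Amp Q N R δ - AS c (((J + 1) ^ (2 * Q) : ℕ) : ℝ)) * (UU j₀ (J + 1)) ^ 2 * P.eval (UU j₀ (J + 1)) -
        (Amp Q N R δ - AS c ((J ^ (2 * Q) : ℕ) : ℝ)) * (UU j₀ J) ^ 2 * P.eval (UU j₀ J)) ∧
    ∀ x : ℝ, (J : ℝ) ^ (2 * Q) ≤ x → x ≤ ((J : ℝ) + 1) ^ (2 * Q) →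
      (x ∈ nr → |AS c x + (Amp Q N R δ - AS c ((J ^ (2 * Q) : ℕ) : ℝ)) +
          ∑ n ∈ (CC Q J).filter (fun n : ℕ => (n : ℝ) ≤ x), s n| ≤ ((R : ℝ) ^ (2 * Q)) ^ (46 / 100 : ℝ)) ∧
      (x ∉ nr → ((R : ℝ) ^ (2 * Q)) ^ (3 / 10 : ℝ) ≤ ω x * (AS c x + (Amp Q N R δ - AS c ((J ^ (2 * Q) : ℕ) : ℝ)) +
          ∑ n ∈ (CC Q J).filter (fun n : ℕ => (n : ℝ) ≤ x), s n))

/-- LV-RAMP: a forcing in a cell with prescribed values at the end points (from LV-PART, LV-CELL). -/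
def TaskRamp : Prop := ∃ Q₀ : ℕ, ∀ Q : ℕ, Q₀ ≤ Q → ∀ δ₁ δ : ℝ, 0 < δ₁ → δ₁ < δ →
  ∃ R₀ : ℕ, ∀ R : ℕ, R₀ ≤ R → ∀ J : ℕ, R ≤ J → (J + 1) ^ (2 * Q) ≤ 2 * R ^ (2 * Q) → ∀ j₀ : ℕ, 1 ≤ j₀ → j₀ ≤ R →
  ∀ α β : ℝ, |α| ≤ (CC Q R).card * ((R : ℝ) ^ (2 * Q)) ^ (-δ) → |β| ≤ (CC Q R).card * ((R : ℝ) ^ (2 * Q)) ^ (-δ) →
  ∃ s : ℕ → ℝ, (∀ n, s n ≠ 0 → n.Prime ∧ n ∈ CC Q J) ∧ (∀ n, |s n| ≤ ((R : ℝ) ^ (2 * Q)) ^ (-δ₁)) ∧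
    ∑ n ∈ CC Q J, s n = β - α ∧
    ∀ P : Polynomial ℝ, P.natDegree < 4 * Q + 4 → ∑ p ∈ CC Q J, s p * (vv Q j₀ p) ^ 2 * P.eval (vv Q j₀ p) =
      β * (UU j₀ (J + 1)) ^ 2 * P.eval (UU j₀ (J + 1)) - α * (UU j₀ J) ^ 2 * P.eval (UU j₀ J)

/-- LV-STEER: steering in a window (from LV-MAIN and LV-RAMP). -/
def TaskSteer : Prop := ∃ Q₀ : ℕ, ∀ Q : ℕ, Q₀ ≤ Q → ∀ δ₁ δ r : ℝ, 0 < δ₁ → δ₁ < δ → δ < r → r ≤ 1 / 8 →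
  ∀ j₀ : ℕ, 3 ≤ j₀ → ∃ R₀ : ℕ, ∀ R : ℕ, R₀ ≤ R →
  ∃ (nr : Set ℝ) (ω : ℝ → ℝ), (∀ x, ω x = 1 ∨ ω x = -1) ∧ ∀ c : ℕ → ℝ,
  (∀ n : ℕ, R ^ (2 * Q) < n → n ≤ 2 * R ^ (2 * Q) → |c n| ≤ ((R : ℝ) ^ (2 * Q)) ^ (-r)) →
  (∀ x : ℝ, (R : ℝ) ^ (2 * Q) ≤ x → x ≤ 2 * (R : ℝ) ^ (2 * Q) →
    |AS c x| ≤ (R : ℝ) ^ (2 * Q - 1) * ((R : ℝ) ^ (2 * Q)) ^ (-r)) →
  ∃ s : ℕ → ℝ, (∀ n, s n ≠ 0 → n.Prime ∧ R ^ (2 * Q) < n ∧ n ≤ 2 * R ^ (2 * Q)) ∧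
    (∀ n, |s n| ≤ ((R : ℝ) ^ (2 * Q)) ^ (-δ₁)) ∧
    (∀ j : ℕ, |BB Q j₀ s j| ≤ (R : ℝ) ^ (2 * Q - 1) * ((R : ℝ) ^ (2 * Q)) ^ (-δ₁) * (UU j₀ j) ^ 2) ∧
    (∀ j : ℕ, 2 * R ^ (2 * Q) < (j + 1) ^ (2 * Q) → BB Q j₀ s j = 0) ∧
    (∀ j : ℕ, ∀ P : Polynomial ℝ, P.natDegree < 4 * Q + 4 →
      ∑ p ∈ CC Q j, s p * (vv Q j₀ p) ^ 2 * P.eval (vv Q j₀ p) + BB Q j₀ s j * P.eval (UU j₀ j) =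
        BB Q j₀ s (j + 1) * P.eval (UU j₀ (j + 1))) ∧
    ∀ x : ℝ, ((R : ℝ) + 1) ^ (2 * Q) ≤ x → x ≤ 3 / 2 * (R : ℝ) ^ (2 * Q) →
      (x ∈ nr → |AS c x + AS s x| ≤ ((R : ℝ) ^ (2 * Q)) ^ (46 / 100 : ℝ)) ∧
      (x ∉ nr → ((R : ℝ) ^ (2 * Q)) ^ (3 / 10 : ℝ) ≤ ω x * (AS c x + AS s x))

/-! ## Glueing the windows -/

/-- sum of the forcings of the windows (`s k` is supported on integers `> k`) -/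
noncomputable def glue (s : ℕ → ℕ → ℝ) (n : ℕ) : ℝ := ∑ k ∈ range (n + 1), s k n

/-- LV-GLUE: glueing forcings of separated windows. -/
def TaskGlue : Prop := ∀ (Q j₀ : ℕ) (R : ℕ → ℕ) (s : ℕ → ℕ → ℝ), 1 ≤ Q → 3 ≤ j₀ → (∀ k, j₀ ≤ R k) → (∀ k, k ≤ R k) →
  (∀ k, 2 * R k + 1 ≤ R (k + 1)) →
  (∀ k n, s k n ≠ 0 → n.Prime ∧ R k ^ (2 * Q) < n ∧ n ≤ 2 * R k ^ (2 * Q)) →
  (∀ k n, |s k n| ≤ 1 / 2 / (Real.log n) ^ 2) →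
  (∀ k j : ℕ, |BB Q j₀ (s k) j| ≤ 1 / 4 * (R k : ℝ) ^ (2 * Q - 1) * (UU j₀ j) ^ 2) →
  (∀ k j : ℕ, 2 * R k ^ (2 * Q) < (j + 1) ^ (2 * Q) → BB Q j₀ (s k) j = 0) →
  (∀ k j : ℕ, ∀ P : Polynomial ℝ, P.natDegree < 4 * Q + 4 →
    ∑ p ∈ CC Q j, s k p * (vv Q j₀ p) ^ 2 * P.eval (vv Q j₀ p) + BB Q j₀ (s k) j * P.eval (UU j₀ j) =
      BB Q j₀ (s k) (j + 1) * P.eval (UU j₀ (j + 1))) →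
  Frc2 Q j₀ (glue s) ∧
  (∀ k n : ℕ, R k ^ (2 * Q) < n → n ≤ R (k + 1) ^ (2 * Q) → glue s n = s k n) ∧
  (∀ n : ℕ, n ≤ R 0 ^ (2 * Q) → glue s n = 0) ∧
  (∀ k j : ℕ, R k ≤ j → j ≤ R (k + 1) → BB Q j₀ (glue s) j = BB Q j₀ (s k) j) ∧
  (∀ j : ℕ, j ≤ R 0 → BB Q j₀ (glue s) j = 0)

end Pool.Agent.W523.LV
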